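import Pool.Agent.K3h52.HR.Num

set_option autoImplicit false

/-!
# MP_eba1ef_gt: half of the leading term of Rogers' bound, for all convex bodies

Every convex body `K` in `ℝ^d`, `d ≥ 3`, symmetric or not, is covered by at most

`2^d (d log d / 2 + d log log d / 2 + 6 d)`

translates of its interior, so `c_d ≤ (1/2 + o(1)) 2^d d log d`.

Proof. Let `S = K ∩ (2c - K)` be the part of `K` symmetric about a point `c`, `vol S ≥ 2⁻ᵈ vol K`, and
let `c = 0`. For `x` in `K` let `M x` be the set of all `a` with `x + a, x - a ∈ K`, and let
`K°` be the polar body.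

1. Let `x'` be a boundary point, `0 < ζ < 1`, `x = (1 - ζ) x'`. The cap
`C x = {u ∈ K° : ⟨x, u⟩ ≥ 1 - 2ζ}` of the polar body satisfies
`vol (C x) vol (M x) ≥ (ζ/8)^d v / (1/ζ + 1)`, where `v` is a lower bound for the volume products of
symmetric bodies (the improved form of the inequality of Bourgain and Milman): the polar of `M x` is
in the difference body of the polar `G` of `K - x`, and `G` is a union of `1/ζ + 1` sets which have
homothetic copies of ratio `ζ/2` in `C x`.

2. Let `F` be a finite set of such points `x` for which the sets `x + (1/3) M x` are disjoint. Then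
`|F| ≤ 2 (1/ζ + 1) (V/v) (12288/ζ)^(d/2)`, where `V` is the Santalo upper bound for the volume
product: at least the part `2^(-d-1)` of `C x` are points `u` about which a part of `C x` of volume
at least `2^(-d-1) vol (C x)` is symmetric; if `u` is such a point for several `x ∈ F`, then the sets
`x + (1/3) M x` of these `x` are in the cap `{y ∈ K : ⟨y, u⟩ ≥ 1 - 8ζ/3}`, whose volume is at most
`(8ζ/3)^d V / vol (K° ∩ (2u - K°))`; so a point `u` occurs for at most `C^d` of the `x`; hence the
sum of the volumes of the `C x` is at most `C^d vol K°`, that of the `M x` is at most `3^d vol K`,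
and the Cauchy-Schwarz inequality gives the bound for `|F|`.

3. Let `F` be maximal. If `x = (1 - ζ) x'` and the sets of `x` and of `p ∈ F` meet, then
`2x - p ∈ K`, so `⟨u, p⟩ ≥ (1 - 2ζ) ⟨u, x'⟩` for each outer normal `u` of `K` at `x'`. If `F` is
covered by translates `t + ρ K`, `ρ < 1 - 2ζ`, then `⟨u, t⟩ > 0` for one of them and all
normals `u` at `x'`, so the vectors `t` illuminate `K`.

4. Each finite subset of `K` has at least the part `(ρ/(1+ρ))^d` of its points in one translate
of `ρ K` (Cauchy-Schwarz). With `ζ = 1/(4 d log d)`, `ρ = 1 - 5ζ/2` the greedy choice of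
translates gives the theorem if `log d + log log d ≥ 8`; for the other `d` it follows from the bound
`2^d (d log d + d log log d + 2 d)` of `WeightedExtremePointSums`.
-/

open MeasureTheory Module Set
open scoped Pointwise

namespace Pool.Agent.Results.MP_eba1ef_gt.HalfRogersBound

/-- **Main theorem.** -/
theorem result (d : ℕ) (hd : 3 ≤ d) (K : Set (EuclideanSpace ℝ (Fin d))) (hK : Convex ℝ K)
    (hKc : IsCompact K) (hKi : (interior K).Nonempty) :
    ∃ T : Finset (EuclideanSpace ℝ (Fin d)),
      K ⊆ ⋃ t ∈ T, (fun x => t + x) '' interior K ∧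
      (T.card : ℝ) ≤ 2 ^ d *
        (d * Real.log d / 2 + d * Real.log (Real.log d) / 2 + 6 * d) := by
  obtain ⟨T, hT, hcard⟩ := Pool.Agent.K3h52.HR.main d hd K {0} hK hKc hKi (convex_singleton 0)
    isCompact_singleton (singleton_nonempty 0)
  rw [add_singleton, image_congr (g := id) (fun x _ => add_zero x), image_id] at hT
  exact ⟨T, hT, hcard⟩

end Pool.Agent.Results.MP_eba1ef_gt.HalfRogersBound
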