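import Pool.Agent.K3h52.LF.Num

set_option autoImplicit false

/-!
# MP_eba1ef_gt: no logarithm for centrally symmetric bodies

Let `d ≥ 3`, let `A` be a convex body in `ℝ^d` and `B` a nonempty compact convex set (for example
`B = {0}`). Then `A + B` is covered by at most

1. `11 d vol(A - L) / vol L` translates of its interior, for every convex body `L ⊆ A`;
2. `11 d 2^d vol A / vol(A ∩ (2c - A))` translates, for every point `c` in the interior of `A`;
3. `11 d 2^d` translates, if `A` is centrally symmetric.

So `c(K) ≤ 11 d 2^d` for every centrally symmetric convex body `K`, and for every convex body which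
has a centrally symmetric summand with interior points. (The bound of Rogers, Erdos and Rogers,
Rogers and Zong is `2^d (d log d + d log log d + 5 d)` for symmetric bodies.)

Proof. Choose the origin such that `vol K vol K° ≤ 2^d V`, `V` the Santalo bound for the volume
products of symmetric bodies, `K = A - c`. For `p` in `K` let `M(p)` be the set of all `a` with
`p + a, p - a ∈ K`. Let `ζ = 1/(40 d)`, and let `F` be a maximal set of points `p = (1 - ζ) x`, `x`
in the boundary, for which the sets `p + (1/3) M(p)` are disjoint. If for each `p ∈ F` there is a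
`t ∈ T` with `p ∈ t + (1 - κ) K`, `κ > 2ζ`, then the vectors `t` illuminate `K`, hence `A + B`.

1. The translates are chosen at random in a translate `Q` of `((1 + κ)/2) (K - L)`. If `m ∈ M(p)`
and `l ∈ L`, then `t = κ p + ((1 - κ)/2) (p + m - l)` is in `Q` and covers `p`. By the inequality of
Brunn and Minkowski the probability that `p` is covered is therefore at least
`((1 - κ)/(1 + κ))^d (vol L / vol (K - L)) (1 + r)^d`, where `r^d = vol M(p) / vol L`: points `p`
with a large set `M(p)` are covered more often.

2. `∑ vol K / vol M(p) ≤ (C d)^d`, the sum over all `p ∈ F`: let `C(p)` be the cap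
`{u ∈ K° : ⟨p, u⟩ ≥ 1 - 2ζ}` of the polar body. Then `vol C(p) vol M(p) ≥ (ζ/8)^d v / (1/ζ + 1)`,
with `v` a lower bound for volume products (the improved form of the inequality of Bourgain and
Milman), and `∑ vol C(p) ≤ C^d vol K°`, because a point `u` can be a point about which a large part
of `C(p)` is symmetric only for `C^d` of the points `p` (the sets `p + (1/3) M(p)` of these `p` are
in a cap of `K` of small volume).

3. After `N = 9.86 d ((1 + κ)/(1 - κ))^d vol (K - L) / vol L` random choices the expected number of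
points of `F` which are not covered is at most
`∑ exp(-9.86 d (1 + d r)) ≤ exp(-9.86 d) (9.86 e d)^(-d) ∑ r^(-d) < 1`, if
`log d + log log d ≥ 10`. For the other `d` the theorem follows from `HalfRogersBound`.
-/

open MeasureTheory Module Set
open scoped Pointwise

namespace Pool.Agent.Results.MP_eba1ef_gt.LinearFactorBound

/-- `K` is covered by at most `N` translates of its interior. -/
def CoveredBy {d : ℕ} (K : Set (EuclideanSpace ℝ (Fin d))) (N : ℝ) : Prop :=
  ∃ T : Finset (EuclideanSpace ℝ (Fin d)),
    (T.card : ℝ) ≤ N ∧ K ⊆ ⋃ t ∈ T, (fun x => t + x) '' interior K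

/-- **Main theorem.** -/
theorem result (d : ℕ) (hd : 3 ≤ d) (A B : Set (EuclideanSpace ℝ (Fin d))) (hA : Convex ℝ A)
    (hAc : IsCompact A) (hAi : (interior A).Nonempty) (hB : Convex ℝ B) (hBc : IsCompact B)
    (hBn : B.Nonempty) :
    (∀ L ⊆ A, Convex ℝ L → IsCompact L → (interior L).Nonempty →
      CoveredBy (A + B) (11 * d * (volume.real (A - L) / volume.real L))) ∧
    (∀ c ∈ interior A,
      CoveredBy (A + B)
        (11 * d * 2 ^ d * (volume.real A / volume.real (A ∩ {x | (2 : ℝ) • c - x ∈ A})))) ∧
    ((∃ c, ∀ x ∈ A, (2 : ℝ) • c - x ∈ A) → CoveredBy (A + B) (11 * d * 2 ^ d)) := by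
  have hA0 : 0 < volume.real A := Pool.Agent.K3h52.TP.real_pos' volume hAc hAi
  refine ⟨?_, ?_, ?_⟩
  · intro L hLA hL hLc hLi
    have hL0 : 0 < volume.real L := Pool.Agent.K3h52.TP.real_pos' volume hLc hLi
    obtain ⟨T, hT, hcard⟩ := Pool.Agent.K3h52.LF.main d hd A B L hA hAc hB hBc hBn hL hLc hLi hLA
    refine ⟨T, ?_, hT⟩
    rw [← mul_div_assoc, le_div_iff₀ hL0]
    exact hcard
  · intro c hc
    have hRclosed : IsClosed {x : EuclideanSpace ℝ (Fin d) | (2 : ℝ) • c - x ∈ A} :=
      hAc.isClosed.preimage (f := fun x => (2 : ℝ) • c - x) (by fun_prop)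
    have hopen : IsOpen ((fun x => (2 : ℝ) • c - x) ⁻¹' interior A) :=
      isOpen_interior.preimage (by fun_prop)
    have hint : (interior (A ∩ {x | (2 : ℝ) • c - x ∈ A})).Nonempty := by
      refine ⟨c, interior_maximal
        (t := interior A ∩ (fun x => (2 : ℝ) • c - x) ⁻¹' interior A) ?_
        (isOpen_interior.inter hopen) ⟨hc, ?_⟩⟩
      · rintro x ⟨h1, h2⟩
        exact ⟨interior_subset h1, interior_subset (s := A) h2⟩
      · show (2 : ℝ) • c - c ∈ interior A
        rw [two_smul, add_sub_cancel_right]
        exact hc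
    have hL0 : 0 < volume.real (A ∩ {x | (2 : ℝ) • c - x ∈ A}) :=
      Pool.Agent.K3h52.TP.real_pos' volume (hAc.inter_right hRclosed) hint
    obtain ⟨T, hT, hcard⟩ := Pool.Agent.K3h52.LF.sym_part d hd A B hA hAc hAi hB hBc hBn c
    refine ⟨T, ?_, hT⟩
    rw [← mul_div_assoc, le_div_iff₀ hL0]
    exact hcard
  · rintro ⟨c, hc⟩
    obtain ⟨T, hT, hcard⟩ := Pool.Agent.K3h52.LF.sym_part d hd A B hA hAc hAi hB hBc hBn c
    refine ⟨T, ?_, hT⟩
    have e : A ∩ {x | (2 : ℝ) • c - x ∈ A} = A := inter_eq_left.2 hc
    rw [e] at hcard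
    exact le_of_mul_le_mul_right hcard hA0

end Pool.Agent.Results.MP_eba1ef_gt.LinearFactorBound
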