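import Pool.Agent.K3h76.RB.Final

/-!
# MP_eba1ef_gt: cap bodies, and all bodies with circular normal cones

A *cap body* (spiky ball) is a convex body which is the convex hull of a ball and a set of points
such that the segment between any two of these points meets the ball. It is proved that, for every
`d ≥ 1`, every cap body in `ℝ^d` is covered by `2^d` translates of its interior; no symmetry is
assumed, and there may be infinitely many apexes. (Known before: `d = 3`, Arman, Kaire and Prymak;
centrally symmetric cap bodies for `d = 4` and for `d ≥ 20`, Ivanov and Strachan, Bezdek, Ivanov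
and Strachan.)

This is a case of a theorem on the normal cones: if at each boundary point of the convex body `K`
the unit outer normals form a closed spherical cap with angular radius less than 90 degrees
(a smooth point is allowed), or lie in an open spherical cap with angular radius
`arcsin (1 / √d)`, then `K` is covered by `2^d` translates of its interior. If the cap is replaced
in the second case by one with squared sine `d / (2 (d + 1))`,
`1 + (d + 1) (2 π d)^(1/2) log (1 + 4 √2 (d + 1)) 2^((d - 1) / 2)` translates suffice.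

Roundness is not needed in larger dimensions: it is enough that each normal cone lies in some
circular cone of a given size or contains such a cone (part 3), and two different sizes are
allowed in the asymptotic statements (parts 4 and 5): if each normal cone lies in a circular cone of
half-angle `α < 60°` or contains a circular cone of half-angle `β > 30°`, then fewer than `2^d`
translates suffice for `d ≥ d₀(α, β)`.

Proof. The interiors of the normal cones at different points are disjoint, so that the wide cones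
are few: their number is bounded by Levenshtein's linear programming bound of degree three
(`d ≥ 6`), or by volume. The points with narrow normal cones are illuminated by explicit sphere
codes (`6 ≤ d ≤ 18`) or random ones (`d ≥ 19`), the others one by one. For `d = 5` one uses the
vectors of an orthonormal basis and their negatives, 14 random directions and 8 directions for the
remaining points; for `d = 3, 4` a random orthonormal basis (Haar measure) and 2, respectively 8,
further directions.
-/

set_option autoImplicit false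

open scoped RealInnerProductSpace

namespace Pool.Agent.Results.MP_eba1ef_gt.RoundNormalCones

/-- Euclidean space. -/
abbrev E (d : ℕ) : Type := EuclideanSpace ℝ (Fin d)

/-- `K` is a convex body. -/
def IsBody {d : ℕ} (K : Set (E d)) : Prop := Convex ℝ K ∧ IsCompact K ∧ (interior K).Nonempty

/-- `K` is covered by at most `N` translates of its interior. -/
def CoveredBy {d : ℕ} (N : ℕ) (K : Set (E d)) : Prop :=
  ∃ T : Finset (E d), T.card ≤ N ∧ K ⊆ ⋃ t ∈ T, (fun x => t + x) '' interior K

/-- `u` is a unit outer normal of `K` at `x`. -/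
def IsNormal {d : ℕ} (K : Set (E d)) (x u : E d) : Prop := ‖u‖ = 1 ∧ ∀ y ∈ K, ⟪u, y⟫ ≤ ⟪u, x⟫

/-- The unit outer normals at `x` are exactly the unit vectors `u` with `⟪c, u⟫ ≥ t`, for some unit
vector `c` and some `t > 0`: a spherical cap with angular radius `arccos t` less than 90 degrees
(one point if `t = 1`, empty if `t > 1`). -/
def Circular {d : ℕ} (K : Set (E d)) (x : E d) : Prop :=
  ∃ (c : E d) (t : ℝ), ‖c‖ = 1 ∧ 0 < t ∧ ∀ u, ‖u‖ = 1 → (IsNormal K x u ↔ t ≤ ⟪c, u⟫)

/-- The unit outer normals at `x` lie in a spherical cap with angular radius `arccos a`. -/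
def Inside {d : ℕ} (a : ℝ) (K : Set (E d)) (x : E d) : Prop :=
  ∃ c : E d, ‖c‖ = 1 ∧ ∀ u, IsNormal K x u → a ≤ ⟪c, u⟫

/-- The unit outer normals at `x` include a spherical cap with angular radius `arccos b`. -/
def Contains {d : ℕ} (b : ℝ) (K : Set (E d)) (x : E d) : Prop :=
  ∃ c : E d, ‖c‖ = 1 ∧ ∀ u, ‖u‖ = 1 → b ≤ ⟪c, u⟫ → IsNormal K x u

/-- the cosine used in dimension `d` -/
noncomputable def thr (d : ℕ) : ℝ :=
  if d = 7 then √(3 / 5) else if d = 8 then 4 / 5 else √(1 / 2 + 1 / (2 * ((d : ℝ) + 1)))

lemma thr_sq (d : ℕ) : thr d ^ 2 = 1 - K3h76.RB.qd d := by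
  unfold thr K3h76.RB.qd
  split_ifs with h7 h8
  · rw [Real.sq_sqrt (by norm_num)]
    norm_num
  · norm_num
  · rw [Real.sq_sqrt (by positivity)]
    field_simp
    ring

lemma thr_pos (d : ℕ) : 0 < thr d := by
  unfold thr
  split_ifs with h7 h8
  · exact Real.sqrt_pos.2 (by norm_num)
  · norm_num
  · exact Real.sqrt_pos.2 (by positivity)

theorem result :
    -- (1) circular or small normal cones
    (∀ (d : ℕ) (K : Set (E d)), 1 ≤ d → IsBody K →
      (∀ x ∈ frontier K, Circular K x ∨ ∃ a : ℝ, √(1 - 1 / d) < a ∧ Inside a K x) →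
      CoveredBy (2 ^ d) K) ∧
    -- (2) cap bodies of balls, and their linear images (cap bodies of ellipsoids)
    (∀ (d : ℕ) (o : E d) (r : ℝ) (P : Set (E d)) (A : E d ≃L[ℝ] E d), 1 ≤ d → 0 < r →
      IsCompact (convexHull ℝ (Metric.closedBall o r ∪ P)) →
      (∀ p ∈ P, ∀ q ∈ P, p ≠ q → (segment ℝ p q ∩ Metric.closedBall o r).Nonempty) →
      CoveredBy (2 ^ d) (A '' convexHull ℝ (Metric.closedBall o r ∪ P))) ∧
    -- (3) dimensions at least six: cones inside or containing a circular cone
    (∀ (d : ℕ) (K : Set (E d)), 6 ≤ d → IsBody K →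
      (∀ x ∈ frontier K, Inside (thr d) K x ∨ Contains (thr d) K x) → CoveredBy (2 ^ d) K) ∧
    -- (4) the same with two parameters
    (∀ (d : ℕ) (a b : ℝ) (K : Set (E d)), 2 ≤ d → 0 < a → a < 1 → 0 < b → b < 1 → IsBody K →
      (∀ x ∈ frontier K, Inside √(a + (1 - a) / (d + 1)) K x ∨ Contains b K x) →
      ∃ N : ℕ, (N : ℝ) ≤ 1 + d * √(2 * Real.pi * d) *
        Real.log (1 + 4 * ((d : ℝ) + 1) / √(1 - a)) * (1 / √a) ^ (d - 1) +
        √(2 * Real.pi * d) * (1 / √(1 - b ^ 2)) ^ (d - 1) ∧ CoveredBy N K) ∧
    -- (5) asymptotically: half-angles less than 60 degrees, or more than 30 degrees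
    (∀ a b : ℝ, 1 / 2 < a → b < √3 / 2 → ∃ d₀ : ℕ, ∀ (d : ℕ) (K : Set (E d)), d₀ ≤ d → IsBody K →
      (∀ x ∈ frontier K, Inside a K x ∨ Contains b K x) → ∃ N : ℕ, N < 2 ^ d ∧ CoveredBy N K) ∧
    -- (6) circular normal cones: the bound with base `√2`
    (∀ (d : ℕ) (K : Set (E d)), 2 ≤ d → IsBody K →
      (∀ x ∈ frontier K, Circular K x ∨ Inside √(1 / 2 + 1 / (2 * ((d : ℝ) + 1))) K x) →
      ∃ N : ℕ, (N : ℝ) ≤ 1 + (d + 1) * √(2 * Real.pi * d) *
        Real.log (1 + 4 * √2 * ((d : ℝ) + 1)) * √2 ^ (d - 1) ∧ CoveredBy N K) := by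
  -- interior points have no normals
  have hint : ∀ (d : ℕ) (K : Set (E d)) (x u : E d), x ∈ interior K → ¬ IsNormal K x u := by
    intro d K x u hx hu
    obtain ⟨ε, hε, hball⟩ := Metric.isOpen_iff.1 isOpen_interior x hx
    have h1 : x + (ε / 2) • u ∈ K := by
      apply interior_subset
      apply hball
      rw [Metric.mem_ball, dist_eq_norm, add_sub_cancel_left, norm_smul, hu.1, mul_one,
        Real.norm_of_nonneg (by positivity)]
      linarith
    have h2 := hu.2 _ h1
    rw [inner_add_right, inner_smul_right, real_inner_self_eq_norm_sq, hu.1] at h2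
    linarith
  have hunit : ∀ (d : ℕ), 1 ≤ d → ∃ e : E d, ‖e‖ = 1 := by
    intro d hd
    exact ⟨EuclideanSpace.single ⟨0, by omega⟩ 1, by simp⟩
  have hcases : ∀ (d : ℕ) (K : Set (E d)) (x : E d), IsBody K → x ∈ K →
      x ∈ frontier K ∨ x ∈ interior K := by
    intro d K x hK hx
    by_cases h : x ∈ interior K
    · exact Or.inr h
    · exact Or.inl ⟨subset_closure hx, h⟩
  have hins : ∀ (d : ℕ) (K : Set (E d)) (x : E d) (a : ℝ), 1 ≤ d → x ∈ interior K →
      Inside a K x := by
    intro d K x a hd hx
    obtain ⟨e, he⟩ := hunit d hd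
    exact ⟨e, he, fun u hu => absurd hu (hint d K x u hx)⟩
  have h1 : ∀ (d : ℕ) (K : Set (E d)), 1 ≤ d → IsBody K →
      (∀ x ∈ frontier K, Circular K x ∨ ∃ a : ℝ, √(1 - 1 / d) < a ∧ Inside a K x) →
      CoveredBy (2 ^ d) K := by
    intro d K hd hK h
    refine K3h76.RB.cover_circ hd hK.1 hK.2.1 hK.2.2 fun x hx => ?_
    have h' : Circular K x ∨ ∃ a : ℝ, √(1 - 1 / d) < a ∧ Inside a K x := by
      rcases hcases d K x hK hx with hf | hi
      · exact h x hf
      · exact Or.inr ⟨√(1 - 1 / d) + 1, by linarith, hins d K x _ hd hi⟩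
    rcases h' with h2 | ⟨a, ha, c, hc, hn⟩
    · exact Or.inr h2
    · refine Or.inl ⟨c, hc, fun u hu => ?_⟩
      have h3 := hn u hu
      have h4 : 0 ≤ √(1 - 1 / (d : ℝ)) := Real.sqrt_nonneg _
      refine ⟨by linarith, ?_⟩
      have h5 : √(1 - 1 / (d : ℝ)) ^ 2 = 1 - 1 / d := by
        refine Real.sq_sqrt ?_
        rw [sub_nonneg, div_le_one (by exact_mod_cast hd)]
        exact_mod_cast hd
      rw [← h5]
      exact pow_lt_pow_left₀ (ha.trans_le h3) h4 (by norm_num)
  refine ⟨h1, ?_, ?_, ?_, ?_, ?_⟩
  · intro d o r P A hd hr hcomp hP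
    obtain ⟨e, he⟩ := hunit d hd
    have hd0 : (0 : ℝ) < d := by exact_mod_cast hd
    refine K3h76.RB.cov_image A (K3h76.RB.cover_circ hd (convex_convexHull ℝ _) hcomp ?_
      fun x hx => K3h76.RB.capbody hr hP he (by positivity) hx)
    refine ⟨o, ?_⟩
    have h2 : Metric.ball o r ⊆ convexHull ℝ (Metric.closedBall o r ∪ P) :=
      (Metric.ball_subset_closedBall.trans Set.subset_union_left).trans
        (subset_convexHull ℝ _)
    exact interior_maximal h2 Metric.isOpen_ball (Metric.mem_ball_self hr)
  · intro d K hd hK h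
    refine K3h76.RB.cover_six hd hK.1 hK.2.1 hK.2.2 fun x hx => ?_
    have h0 := thr_pos d
    have h2 := thr_sq d
    have h' : Inside (thr d) K x ∨ Contains (thr d) K x := by
      rcases hcases d K x hK hx with hf | hi
      · exact h x hf
      · exact Or.inl (hins d K x _ (by omega) hi)
    rcases h' with ⟨c, hc, hn⟩ | ⟨c, hc, hn⟩
    · refine Or.inl ⟨c, hc, fun u hu => ?_⟩
      have h3 := hn u hu
      refine ⟨h0.trans_le h3, ?_⟩
      rw [← h2]
      exact pow_le_pow_left₀ h0.le h3 2
    · refine Or.inr ⟨c, hc, fun u hu h3 h4 => hn u hu ?_⟩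
      rw [← h2] at h4
      exact le_of_sq_le_sq h4 h3.le
  · intro d a b K hd ha0 ha1 hb0 hb1 hK h
    refine K3h76.RB.cover_two hd ha0 ha1 hb0 hb1 hK.1 hK.2.1 hK.2.2 fun x hx => ?_
    have hp : 0 < a + (1 - a) / ((d : ℝ) + 1) := by
      have : 0 ≤ (1 - a) / ((d : ℝ) + 1) := div_nonneg (by linarith) (by positivity)
      linarith
    have h' : Inside √(a + (1 - a) / (d + 1)) K x ∨ Contains b K x := by
      rcases hcases d K x hK hx with hf | hi
      · exact h x hf
      · exact Or.inl (hins d K x _ (by omega) hi)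
    rcases h' with ⟨c, hc, hn⟩ | hw
    · refine Or.inl ⟨c, hc, fun u hu => ?_⟩
      have h3 := hn u hu
      have h4 := Real.sqrt_pos.2 hp
      refine ⟨h4.trans_le h3, ?_⟩
      rw [← Real.sq_sqrt hp.le]
      exact pow_le_pow_left₀ h4.le h3 2
    · exact Or.inr hw
  · intro a b ha hb
    obtain ⟨d₀, hd2, hd₀⟩ := K3h76.RB.cover_asymp ha hb
    refine ⟨d₀, fun d K hd hK h => hd₀ d K hd hK.1 hK.2.1 hK.2.2 fun x hx => ?_⟩
    rcases hcases d K x hK hx with hf | hi
    · exact h x hf
    · exact Or.inl (hins d K x _ (by omega) hi)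
  · intro d K hd hK h
    refine K3h76.RB.cover_circ_sqrt hd hK.1 hK.2.1 hK.2.2 fun x hx => ?_
    have hp : 0 < 1 / 2 + 1 / (2 * ((d : ℝ) + 1)) := by positivity
    have h' : Circular K x ∨ Inside √(1 / 2 + 1 / (2 * ((d : ℝ) + 1))) K x := by
      rcases hcases d K x hK hx with hf | hi
      · exact h x hf
      · exact Or.inr (hins d K x _ (by omega) hi)
    rcases h' with hw | ⟨c, hc, hn⟩
    · exact Or.inr hw
    · refine Or.inl ⟨c, hc, fun u hu => ?_⟩
      have h3 := hn u hu
      have h4 := Real.sqrt_pos.2 hp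
      refine ⟨h4.trans_le h3, ?_⟩
      rw [← Real.sq_sqrt hp.le]
      exact pow_le_pow_left₀ h4.le h3 2

end Pool.Agent.Results.MP_eba1ef_gt.RoundNormalCones
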