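import Pool.Agent.K3h76.UC.Final
import Pool.Agent.K3h52.TP.Gen

set_option autoImplicit false

/-!
# MP_eba1ef_gt: a covering criterion by weighted sums of extreme points with the body

Let `A` be a convex body in a Euclidean space of dimension `d`, symmetric or not, let `B` be any
nonempty compact convex set, and let `c(K)` be the least number of translates of the interior of `K`
which cover `K`.  All bounds are for `c(A + B)`, for instance (`B = {0}`) for `c(A)`.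

1. Criterion. Let `φ` be a square integrable function, `0 < z < 1`, and suppose that for every
   extreme point `x` of `A` the integral of `φ (x + u)` over `u ∈ (1 - z) A` is at least `m > 0`. Let
   `p ≤ m² / (vol ((1 - z) A) ∫ φ²)`. Then `c(A + B) ≤ n` if the `n`-th iterate of the map
   `k ↦ ⌊(1 - p) k⌋` is `0` at `k = ⌊(4/z)ᵈ ((1 + z/2)ᵈ - (1 - z/2)ᵈ)⌋`, or at the number of extreme
   points. (For the indicator function of a set `S` which contains all sums up to a part `1 - θ` this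
   is the criterion `θ² vol A / vol S` for the share of one translate.)
2. All bodies: `c(A + B) ≤ 2ᵈ (d log d + d log log d + 2 d)` for `d ≥ 3`, and at most `604`, `1552`,
   `3814`, `9087` for `d = 5, 6, 7, 8`.
3. If `A` has a centre of symmetry: `c(A + B) ≤ 2ᵈ (d log d + d log log d + d)` for `d ≥ 3`, and at
   most `1190`, `2976`, `7188` for `d = 6, 7, 8`.
4. If `A` has at most `N ≥ 2ᵈ` extreme points: `c(A + B) ≤ 1 + 2ᵈ (1 + log (N / 2ᵈ))`.
5. Let `A` be contained in a ball of radius `R`, let `m` be the mean square distance of the points of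
   `A` from the centroid, `ρ² = R² + m` (so `ρ² ≤ 2 R²`), `d ≥ 20`. Then `c(A + B) < 2ᵈ` if
   `vol A ≥ 3 d log d (π e ρ² / (2 d))^(d/2)`.
6. Modulus of convexity. Let `L` be a convex body with `vol A = v^d vol L`, and `2 s^d ≤ v^d`, and
   suppose that `(x + u)/2 + δ L ⊆ A` for all extreme points `x` and all points `u` of `A` with
   `x - u ∉ s L`.  Then `c(A + B) ≤ 1 + 32 (2 (1 - δ/v))^d d log (1 + 8 d (d + 1))`.
7. Let the gauge `g` of `L` be `q`-uniformly convex with constant `c`, that is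
   `g((x + y)/2)^q + c g((x - y)/2)^q ≤ (g(x)^q + g(y)^q)/2`, let `A` be an intersection of
   (arbitrarily many) translates of dilates `r L`, `r ≤ 1`, and `vol A ≥ v^d vol L`.  Then
   `c(A + B) ≤ 1 + 32 · 2^d exp (-c (d - q) v^(q-1) / (q 2^q)) d log (1 + 8 d (d + 1))`.
8. In particular let `A` be an intersection of balls of radius at most `R`, and
   `vol A ≥ v^d vol (R-ball)`.  Then
   `c(A + B) ≤ 1 + 32 · 2^d exp (-(d - 2) v / 8) d log (1 + 8 d (d + 1))`, and `c(A + B) < 2^d` if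
   `33 d log (1 + 8 d (d + 1)) ≤ exp ((d - 2) v / 8)`, `d ≥ 6`.

Proof of the criterion. Let `X` be a finite set of extreme points, `L = (1 - z) A`, `g` the sum of the
indicator functions of the sets `x + L`. The integral of `g²` is at most `|X| vol L` times the
greatest number of points of `X` in a translate of `L`, and by the Cauchy-Schwarz inequality
`∫ g² ≥ (∫ g φ)² / ∫ φ² ≥ (m |X|)² / ∫ φ²`. So some translate of `L` contains the share `p` of `X`.
A maximal set `X` of extreme points with differences not in `z S`, where `S` is the part of `A`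
symmetric about a suitable point, `vol S ≥ 2⁻ᵈ vol A`, has at most
`(4/z)ᵈ ((1 + z/2)ᵈ - (1 - z/2)ᵈ)` points, as the bodies `x + (z/2) S` are disjoint and lie in a shell
of `A`; the greedy choice of translates of `L` covers it. The translates which cover the extreme
points of `A` give directions which illuminate `A + B`. In (2) `φ` is the indicator function of
`(2 - z) A`, in (5) a Gaussian density (Jensen's inequality).
-/

open MeasureTheory Module Set
open scoped Pointwise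

namespace Pool.Agent.Results.MP_eba1ef_gt.WeightedExtremePointSums

/-- The Euclidean space of dimension `d`. -/
abbrev Sp (d : ℕ) : Type := EuclideanSpace ℝ (Fin d)

/-- `K` is covered by at most `N` translates of its interior. -/
def CoveredBy {d : ℕ} (N : ℝ) (K : Set (Sp d)) : Prop :=
  ∃ T : Finset (Sp d), (T.card : ℝ) ≤ N ∧ K ⊆ ⋃ t ∈ T, (fun x => t + x) '' interior K

/-- `K` is covered by less than `N` translates of its interior. -/
def CoveredByLess {d : ℕ} (N : ℕ) (K : Set (Sp d)) : Prop :=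
  ∃ T : Finset (Sp d), T.card < N ∧ K ⊆ ⋃ t ∈ T, (fun x => t + x) '' interior K

/-- `A` is the intersection of a nonempty family of sets `p + r L` with `0 < r ≤ R`. -/
def IsIntersection {d : ℕ} (L : Set (Sp d)) (R : ℝ) (A : Set (Sp d)) : Prop :=
  ∃ P : Set (Sp d × ℝ), P.Nonempty ∧ (∀ c ∈ P, 0 < c.2 ∧ c.2 ≤ R) ∧
    A = ⋂ c ∈ P, {y | y - c.1 ∈ c.2 • L}

/-- `A` is the intersection of a nonempty family of balls of radius at most `R`. -/
def IsBallIntersection {d : ℕ} (R : ℝ) (A : Set (Sp d)) : Prop :=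
  ∃ P : Set (Sp d × ℝ), P.Nonempty ∧ (∀ c ∈ P, 0 < c.2 ∧ c.2 ≤ R) ∧
    A = ⋂ c ∈ P, Metric.closedBall c.1 c.2

/-- The volume. -/
noncomputable def vol {d : ℕ} (A : Set (Sp d)) : ℝ := (volume : Measure (Sp d)).real A

/-- The map `k ↦ ⌊(1 - p) k⌋`. -/
noncomputable def step (p : ℝ) (k : ℕ) : ℕ := ⌊(1 - p) * k⌋₊

/-- 1. The criterion. -/
def Criterion {d : ℕ} (A B : Set (Sp d)) : Prop :=
  ∀ (φ : Sp d → ℝ) (z m p : ℝ) (k n : ℕ), MemLp φ 2 volume → 0 < z → z < 1 → 0 < m →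
    (∀ x ∈ A.extremePoints ℝ, m ≤ ∫ u in (1 - z) • A, φ (x + u)) →
    p * (vol ((1 - z) • A) * ∫ y, φ y ^ 2) ≤ m ^ 2 →
    (⌊(4 / z) ^ d * ((1 + z / 2) ^ d - (1 - z / 2) ^ d)⌋₊ ≤ k ∨
      (A.extremePoints ℝ).Finite ∧ (A.extremePoints ℝ).ncard ≤ k) →
    (step p)^[n] k = 0 → CoveredBy n (A + B)

/-- 2. The bounds for all bodies. -/
def AllBodies {d : ℕ} (A B : Set (Sp d)) : Prop :=
  (3 ≤ d → CoveredBy (2 ^ d * (d * Real.log d + d * Real.log (Real.log d) + 2 * d)) (A + B)) ∧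
    (d = 5 → CoveredBy 604 (A + B)) ∧ (d = 6 → CoveredBy 1552 (A + B)) ∧
    (d = 7 → CoveredBy 3814 (A + B)) ∧ (d = 8 → CoveredBy 9087 (A + B))

/-- 3. The bounds for bodies with a centre of symmetry. -/
def Centred {d : ℕ} (A B : Set (Sp d)) : Prop :=
  (∃ o : Sp d, ∀ x ∈ A, (2 : ℝ) • o - x ∈ A) →
    (3 ≤ d → CoveredBy (2 ^ d * (d * Real.log d + d * Real.log (Real.log d) + d)) (A + B)) ∧
    (d = 6 → CoveredBy 1190 (A + B)) ∧ (d = 7 → CoveredBy 2976 (A + B)) ∧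
    (d = 8 → CoveredBy 7188 (A + B))

/-- 4. Bodies with finitely many extreme points. -/
def FewExtremePoints {d : ℕ} (A B : Set (Sp d)) : Prop :=
  ∀ N : ℕ, (A.extremePoints ℝ).Finite → (A.extremePoints ℝ).ncard ≤ N → 2 ^ d ≤ N →
    CoveredBy (1 + 2 ^ d * (1 + Real.log (N / 2 ^ d))) (A + B)

/-- 5. Bodies in a ball. -/
def InBall {d : ℕ} (A B : Set (Sp d)) : Prop :=
  (∀ (c g : Sp d) (R ρ : ℝ), 20 ≤ d → 0 < ρ → A ⊆ Metric.closedBall c R →
    ∫ u in A, u = vol A • g → R ^ 2 * vol A + ∫ u in A, ‖u - g‖ ^ 2 ≤ ρ ^ 2 * vol A →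
    3 * (d * Real.log d) * (Real.pi * Real.exp 1 * ρ ^ 2 / (2 * d)) ^ (d / 2 : ℝ) ≤ vol A →
    CoveredByLess (2 ^ d) (A + B)) ∧
  (∀ (c : Sp d) (R : ℝ), 20 ≤ d → A ⊆ Metric.closedBall c R →
    3 * (d * Real.log d) * (Real.pi * Real.exp 1 * R ^ 2 / d) ^ (d / 2 : ℝ) ≤ vol A →
    CoveredByLess (2 ^ d) (A + B))

/-- 6. Modulus of convexity. -/
def Modulus {d : ℕ} (A B : Set (Sp d)) : Prop :=
  ∀ (L : Set (Sp d)) (s δ v : ℝ), IsCompact L → (interior L).Nonempty → 0 < s → 0 < δ → 0 < v →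
    vol A = v ^ d * vol L → 2 * s ^ d ≤ v ^ d →
    (∀ x ∈ A.extremePoints ℝ, ∀ u ∈ A, x - u ∉ s • L →
      ∀ w ∈ L, (1 / 2 : ℝ) • (x + u) + δ • w ∈ A) →
    δ ≤ v ∧ CoveredBy (1 + 32 * (2 * (1 - δ / v)) ^ d *
      (d * Real.log (1 + 8 * d * (d + 1)))) (A + B)

/-- 7. Intersections of translates of uniformly convex bodies. -/
def UniformlyConvex {d : ℕ} (A B : Set (Sp d)) : Prop :=
  ∀ (L : Set (Sp d)) (q c v : ℝ), Convex ℝ L → IsCompact L → (0 : Sp d) ∈ interior L →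
    1 ≤ q → 0 < c →
    (∀ x y, gauge L ((1 / 2 : ℝ) • (x + y)) ^ q + c * gauge L ((1 / 2 : ℝ) • (x - y)) ^ q ≤
      (gauge L x ^ q + gauge L y ^ q) / 2) →
    2 ≤ d → q ≤ d → 0 < v → IsIntersection L 1 A → v ^ d * vol L ≤ vol A →
    CoveredBy (1 + 32 * (2 ^ d * Real.exp (-(c / (q * 2 ^ q) * (d - q) * v ^ (q - 1)))) *
      (d * Real.log (1 + 8 * d * (d + 1)))) (A + B) ∧
    (6 ≤ d → 33 * (d * Real.log (1 + 8 * d * (d + 1))) ≤
      Real.exp (c / (q * 2 ^ q) * (d - q) * v ^ (q - 1)) → CoveredByLess (2 ^ d) (A + B))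

/-- 8. Intersections of balls. -/
def Balls {d : ℕ} (A B : Set (Sp d)) : Prop :=
  ∀ R v : ℝ, 0 < R → 2 ≤ d → 0 < v → IsBallIntersection R A →
    v ^ d * vol (Metric.closedBall (0 : Sp d) R) ≤ vol A →
    CoveredBy (1 + 32 * (2 ^ d * Real.exp (-((d - 2) * v / 8))) *
      (d * Real.log (1 + 8 * d * (d + 1)))) (A + B) ∧
    (6 ≤ d → 33 * (d * Real.log (1 + 8 * d * (d + 1))) ≤ Real.exp ((d - 2) * v / 8) →
      CoveredByLess (2 ^ d) (A + B))

theorem result (d : ℕ) (hd1 : 1 ≤ d) (A B : Set (Sp d))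
    (hA : Convex ℝ A) (hAc : IsCompact A) (hAi : (interior A).Nonempty)
    (hB : Convex ℝ B) (hBc : IsCompact B) (hBn : B.Nonempty) :
    Criterion A B ∧ AllBodies A B ∧ Centred A B ∧ FewExtremePoints A B ∧ InBall A B ∧
      Modulus A B ∧ UniformlyConvex A B ∧ Balls A B := by
  have hd : finrank ℝ (Sp d) = d := by simp [Sp]
  have cov : ∀ n : ℕ, (∃ T : Finset (Sp d), A + B ⊆ ⋃ t ∈ T, (fun x => t + x) '' interior (A + B) ∧
      T.card ≤ n) → CoveredBy n (A + B) := by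
    rintro n ⟨T, hT, hcard⟩
    exact ⟨T, by exact_mod_cast hcard, hT⟩
  have covr : ∀ N : ℝ, (∃ T : Finset (Sp d), A + B ⊆ ⋃ t ∈ T, (fun x => t + x) '' interior (A + B) ∧
      (T.card : ℝ) ≤ N) → CoveredBy N (A + B) := by
    rintro N ⟨T, hT, hcard⟩
    exact ⟨T, hcard, hT⟩
  have covl : ∀ N : ℕ, (∃ T : Finset (Sp d), A + B ⊆ ⋃ t ∈ T, (fun x => t + x) '' interior (A + B) ∧
      T.card < N) → CoveredByLess N (A + B) := by
    rintro N ⟨T, hT, hcard⟩
    exact ⟨T, hcard, hT⟩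
  refine ⟨?_, ⟨?_, ?_, ?_, ?_, ?_⟩, ?_, ?_, ⟨?_, ?_⟩, ?_, ?_, ?_⟩
  · intro φ z m p k n hφ hz hz1 hm h hp hk hn
    exact cov n (Pool.Agent.K3h52.TP.crit_sum volume A B hA hAc hAi hB hBc hBn d hd hd1 z hz hz1 φ
      hφ m hm h p hp k hk n hn)
  · intro h3
    exact covr _ (Pool.Agent.K3h52.TP.all_gen A B hA hAc hAi hB hBc hBn d hd h3)
  · rintro rfl
    exact_mod_cast cov 604 (Pool.Agent.K3h52.TP.num_sum A B hA hAc hAi hB hBc hBn 5 1 10 604
      (by norm_num) (by norm_num) hd1 hd Pool.Agent.K3h52.TP.v5)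
  · rintro rfl
    exact_mod_cast cov 1552 (Pool.Agent.K3h52.TP.num_sum A B hA hAc hAi hB hBc hBn 6 2 25 1552
      (by norm_num) (by norm_num) hd1 hd Pool.Agent.K3h52.TP.v6)
  · rintro rfl
    exact_mod_cast cov 3814 (Pool.Agent.K3h52.TP.num_sum A B hA hAc hAi hB hBc hBn 7 17 250 3814
      (by norm_num) (by norm_num) hd1 hd Pool.Agent.K3h52.TP.v7)
  · rintro rfl
    exact_mod_cast cov 9087 (Pool.Agent.K3h52.TP.num_sum A B hA hAc hAi hB hBc hBn 8 59 1000 9087
      (by norm_num) (by norm_num) hd1 hd Pool.Agent.K3h52.TP.v8)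
  · rintro ⟨o, ho⟩
    refine ⟨?_, ?_, ?_, ?_⟩
    · intro h3
      exact covr _ (Pool.Agent.K3h52.TP.symm_gen A B hA hAc hAi o ho hB hBc hBn d hd h3)
    · rintro rfl
      exact_mod_cast cov 1190 (Pool.Agent.K3h52.TP.num_sum_symm A B hA hAc hAi o ho hB hBc hBn 6
        113 1000 1190 (by norm_num) (by norm_num) hd1 hd Pool.Agent.K3h52.TP.s6)
    · rintro rfl
      exact_mod_cast cov 2976 (Pool.Agent.K3h52.TP.num_sum_symm A B hA hAc hAi o ho hB hBc hBn 7
        12 125 2976 (by norm_num) (by norm_num) hd1 hd Pool.Agent.K3h52.TP.s7)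
    · rintro rfl
      exact_mod_cast cov 7188 (Pool.Agent.K3h52.TP.num_sum_symm A B hA hAc hAi o ho hB hBc hBn 8
        807 10000 7188 (by norm_num) (by norm_num) hd1 hd Pool.Agent.K3h52.TP.s8)
  · intro N hf hN hN2
    exact covr _ (Pool.Agent.K3h52.TP.fin_sum A B hA hAc hAi hB hBc hBn d hd hd1 hf N hN hN2)
  · intro c g R ρ h20 hρ hAR hg hm hvol
    exact covl _ (Pool.Agent.K3h52.TP.ball_thr2 A B hA hAc hAi hB hBc hBn d hd h20 c g R ρ hρ hAR
      hg hm hvol)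
  · intro c R h20 hAR hvol
    exact covl _ (Pool.Agent.K3h52.TP.ball_thr3 A B hA hAc hAi hB hBc hBn d hd h20 c R hAR hvol)
  · intro L s δ v hLc hLn hs hδ hv hvol h2 hmid
    obtain ⟨h1, T, hT, hcard⟩ := Pool.Agent.K3h76.UC.mid_crit volume A B hA hAc hAi hB hBc hBn d hd
      hd1 L hLc hLn s δ v hs hδ hv hvol h2 hmid
    exact ⟨h1, T, hcard, hT⟩
  · intro L q c v hL hLc hL0 hq hc hineq hd2 hqd hv hint hvol
    obtain ⟨P, hP, hPR, hAP⟩ := hint
    haveI : Nonempty P := hP.to_subtype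
    obtain ⟨T, hT, hcard⟩ := Pool.Agent.K3h76.UC.uc_inter volume L hL hLc hL0 q c hq hc hineq
      (ι := P) (fun c => c.1.1) (fun c => c.1.2) (fun c => hPR c.1 c.2) A B
      (by rw [hAP, Set.biInter_eq_iInter]) hAi hB hBc hBn d hd hd2 hqd v hv hvol
    exact ⟨⟨T, hcard, hT⟩, fun h6 hX => ⟨T, Pool.Agent.K3h76.UC.thr d T.card h6 _ hcard hX, hT⟩⟩
  · intro R v hR hd2 hv hint hvol
    obtain ⟨P, hP, hPR, hAP⟩ := hint
    obtain ⟨T, hT, hcard⟩ := Pool.Agent.K3h76.UC.balls volume P hP R hR hPR A B hAP hAi hB hBc hBn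
      d hd hd2 v hv hvol
    exact ⟨⟨T, hcard, hT⟩, fun h6 hX => ⟨T, Pool.Agent.K3h76.UC.thr d T.card h6 _ hcard hX, hT⟩⟩

end Pool.Agent.Results.MP_eba1ef_gt.WeightedExtremePointSums
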